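import Pool.Agent.Helper60.LZ.St

/-!
# Project LZ, module FYA: upper bound sieve with one class per prime
-/

set_option autoImplicit false

noncomputable section

namespace Pool.Agent.Helper36.LZ

open Pool.Agent.Helper60.LZ
open Finset
open Pool.Agent.Helper30.LK (StSVU)

/-- the class modulo `l` -/
private lemma sol {l P y : ℕ} (hl : l.Prime) (h1 : ¬ l ∣ y + 1) (h2 : ¬ l ∣ P) :
    ∃ s : ℕ, s < l ∧ ∀ m : ℕ, m % l = s → (l : ℤ) ∣ ((y : ℤ) + 1) * ((P : ℤ) - 4 + P * m) - y := by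
  have hfact : Fact l.Prime := ⟨hl⟩
  have hnez : NeZero l := ⟨hl.ne_zero⟩
  have e1 : ((y : ZMod l) + 1) ≠ 0 := by
    intro h
    apply h1
    rw [← CharP.cast_eq_zero_iff (ZMod l) l]
    push_cast
    exact h
  have e2 : (P : ZMod l) ≠ 0 := by
    intro h
    exact h2 ((CharP.cast_eq_zero_iff (ZMod l) l P).1 h)
  refine ⟨(((y : ZMod l) * ((y : ZMod l) + 1)⁻¹ - ((P : ZMod l) - 4)) * (P : ZMod l)⁻¹).val,
    ZMod.val_lt _, ?_⟩
  intro m hm
  have h3 : (m : ZMod l) = ((y : ZMod l) * ((y : ZMod l) + 1)⁻¹ - ((P : ZMod l) - 4)) * (P : ZMod l)⁻¹ := by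
    rw [← ZMod.natCast_mod m l, hm, ZMod.natCast_zmod_val]
  rw [← ZMod.intCast_zmod_eq_zero_iff_dvd]
  push_cast
  rw [h3]
  field_simp
  ring

open Classical in
/-- MODULE FYA -/
theorem hFYA (hS : StSVU) : StFYA := by
  obtain ⟨C, δ, hC, hδ, hδ4, hS⟩ := hS
  refine ⟨C * Real.exp 1, δ, by positivity, hδ, hδ4, 64, ?_⟩
  intro x P y w hx hP hy1 hy hxP hw
  have hx3 : 64 ≤ x ^ 3 := by
    calc 64 ≤ x := hx
      _ ≤ x ^ 3 := Nat.le_self_pow (by norm_num) x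
  have hP64 : 64 ≤ P := hx3.trans hxP
  have hP1 : (1 : ℝ) ≤ P := by exact_mod_cast (by omega : 1 ≤ P)
  have hPδ : (P : ℝ) ^ δ ≤ P := by
    calc (P : ℝ) ^ δ ≤ (P : ℝ) ^ (1 : ℝ) := Real.rpow_le_rpow_of_exponent_le hP1 (by linarith)
      _ = P := Real.rpow_one _
  have hsol : ∀ l : ℕ, ∃ s : ℕ, l.Prime → ¬ l ∣ y + 1 → ¬ l ∣ P → s < l ∧
      ∀ m : ℕ, m % l = s → (l : ℤ) ∣ ((y : ℤ) + 1) * ((P : ℤ) - 4 + P * m) - y := by
    intro l
    by_cases h : l.Prime ∧ ¬ l ∣ y + 1 ∧ ¬ l ∣ P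
    · obtain ⟨s, hs⟩ := sol h.1 h.2.1 h.2.2
      exact ⟨s, fun _ _ _ => hs⟩
    · exact ⟨0, fun h1 h2 h3 => absurd ⟨h1, h2, h3⟩ h⟩
  choose f hf using hsol
  obtain ⟨S, hSdef⟩ : ∃ S : ℕ → Finset ℕ, S = fun l => if l ∈ pw x w ∧ ¬ l ∣ y + 1 then {f l} else ∅ :=
    ⟨_, rfl⟩
  have hpw : ∀ l ∈ pw x w, l.Prime ∧ 7 ≤ l ∧ l ≤ w ∧ x < 2 * l := by
    intro l hl
    unfold pw at hl
    rw [mem_filter, mem_Icc] at hl
    exact ⟨hl.2.1, hl.1.1, hl.1.2, hl.2.2⟩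
  have hndP : ∀ l ∈ pw x w, ¬ l ∣ P := by
    intro l hl h
    have := hP l (hpw l hl).1 h
    have := (hpw l hl).2.2.2
    omega
  have hmem : ∀ l s : ℕ, s ∈ S l → l ∈ pw x w ∧ ¬ l ∣ y + 1 ∧ s = f l := by
    intro l s hs
    rw [hSdef] at hs
    simp only at hs
    split_ifs at hs with h
    · exact ⟨h.1, h.2, mem_singleton.1 hs⟩
    · simp at hs
  have hcard : ∀ l : ℕ, (S l).card = if l ∈ pw x w ∧ ¬ l ∣ y + 1 then 1 else 0 := by
    intro l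
    rw [hSdef]
    simp only
    split_ifs
    · rfl
    · rfl
  have h0 := hS P (by omega) S (by
    intro l hl h7
    refine ⟨?_, ?_⟩
    · intro s hs
      obtain ⟨a1, a2, a3⟩ := hmem l s hs
      rw [a3]
      exact (hf l hl a2 (hndP l a1)).1
    · rw [hcard]
      split_ifs <;> norm_num)
  -- the sifted set contains `am P y`
  have hsub : am P y ⊆ (Icc 1 P).filter (fun m : ℕ => ∀ l : ℕ, l.Prime → 7 ≤ l →
      (l : ℝ) ≤ (P : ℝ) ^ δ → m % l ∉ S l) := by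
    intro m hm
    unfold am at hm
    rw [mem_filter, mem_Icc] at hm
    rw [mem_filter, mem_Icc]
    refine ⟨hm.1, ?_⟩
    intro l hl h7 hlP hmS
    obtain ⟨a1, a2, a3⟩ := hmem l _ hmS
    have hd := (hf l hl a2 (hndP l a1)).2 m a3
    obtain ⟨n, hn⟩ : ∃ n, n = P - 4 + P * m := ⟨_, rfl⟩
    have hpr := hm.2.1
    rw [← hn] at hpr
    have hPm : P ≤ P * m := Nat.le_mul_of_pos_right P hm.1.1
    have hnP : P < n := by omega
    have hny : y ≤ n := by omega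
    have hnz : (n : ℤ) = (P : ℤ) - 4 + P * m := by
      rw [hn, Nat.cast_add, Nat.cast_sub (by omega)]
      push_cast
      ring
    rw [← hnz] at hd
    have hN : (((n - y) + n * y : ℕ) : ℤ) = ((y : ℤ) + 1) * n - y := by
      rw [Nat.cast_add, Nat.cast_sub hny]
      push_cast
      ring
    rw [← hN] at hd
    have hd' : l ∣ (n - y) + n * y := Int.natCast_dvd_natCast.1 hd
    have heq := (Nat.prime_dvd_prime_iff_eq hl hpr).1 hd'
    have hlP' : l ≤ P := by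
      have : (l : ℝ) ≤ P := hlP.trans hPδ
      exact_mod_cast this
    have hyn : y ≤ n * y := Nat.le_mul_of_pos_left y (by omega)
    omega
  have h1 : ((am P y).card : ℝ) ≤ C * P *
      Real.exp (-∑ l ∈ (Icc 7 ⌊(P : ℝ) ^ δ⌋₊).filter Nat.Prime, ((S l).card : ℝ) / l) := by
    refine le_trans ?_ h0
    exact_mod_cast card_le_card hsub
  -- the exceptional primes
  obtain ⟨T, hT⟩ : ∃ T : Finset ℕ, T = (pw x w).filter (fun l => l ∣ y + 1) := ⟨_, rfl⟩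
  have hTc : T.card ≤ 3 := by
    by_contra hcon
    push Not at hcon
    obtain ⟨U, hUT, hU⟩ := Finset.exists_subset_card_eq (show 4 ≤ T.card by omega)
    have hUm : ∀ l ∈ U, l.Prime ∧ x < 2 * l ∧ l ∣ y + 1 := by
      intro l hl
      have := hUT hl
      rw [hT, mem_filter] at this
      exact ⟨(hpw l this.1).1, (hpw l this.1).2.2.2, this.2⟩
    have hd : ∏ l ∈ U, l ∣ y + 1 :=
      Finset.prod_primes_dvd _ (fun l hl => (hUm l hl).1.prime) (fun l hl => (hUm l hl).2.2)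
    have hle : ∏ l ∈ U, l ≤ y + 1 := Nat.le_of_dvd (by omega) hd
    have h2 : x ^ U.card ≤ ∏ l ∈ U, (2 * l) := by
      rw [← Finset.prod_const]
      exact Finset.prod_le_prod' (fun l hl => (hUm l hl).2.1.le)
    rw [Finset.prod_mul_distrib, Finset.prod_const, hU] at h2
    have h3 : x ^ 4 ≤ 16 * (x ^ 3 + 1) := by
      calc x ^ 4 ≤ 2 ^ 4 * ∏ l ∈ U, l := h2
        _ ≤ 2 ^ 4 * (y + 1) := Nat.mul_le_mul_left _ hle
        _ ≤ 16 * (x ^ 3 + 1) := by omega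
    have h4 : 64 * x ^ 3 ≤ x ^ 4 := by
      calc 64 * x ^ 3 ≤ x * x ^ 3 := Nat.mul_le_mul_right _ hx
        _ = x ^ 4 := by ring
    omega
  have hTs : ∑ l ∈ T, (1 : ℝ) / l ≤ 1 := by
    have h2 : ∑ l ∈ T, (1 : ℝ) / l ≤ ∑ l ∈ T, (1 : ℝ) / 7 := by
      refine sum_le_sum fun l hl => ?_
      rw [hT, mem_filter] at hl
      have h7 : (7 : ℝ) ≤ l := by exact_mod_cast (hpw l hl.1).2.1
      exact one_div_le_one_div_of_le (by norm_num) h7
    rw [sum_const, nsmul_eq_mul] at h2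
    have h3 : (T.card : ℝ) ≤ 3 := by exact_mod_cast hTc
    linarith
  have hsum : ∑ l ∈ pw x w, (1 : ℝ) / l - 1 ≤
      ∑ l ∈ (Icc 7 ⌊(P : ℝ) ^ δ⌋₊).filter Nat.Prime, ((S l).card : ℝ) / l := by
    have hws : w ≤ ⌊(P : ℝ) ^ δ⌋₊ := Nat.le_floor hw
    have hsub2 : pw x w ⊆ (Icc 7 ⌊(P : ℝ) ^ δ⌋₊).filter Nat.Prime := by
      intro l hl
      obtain ⟨a1, a2, a3, a4⟩ := hpw l hl
      rw [mem_filter, mem_Icc]
      exact ⟨⟨a2, a3.trans hws⟩, a1⟩
    have h2 := sum_le_sum_of_subset_of_nonneg (f := fun l : ℕ => ((S l).card : ℝ) / l) hsub2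
      (fun l _ _ => by positivity)
    refine le_trans ?_ h2
    have h3 : ∑ l ∈ pw x w, ((S l).card : ℝ) / l =
        ∑ l ∈ pw x w, (1 : ℝ) / l - ∑ l ∈ T, (1 : ℝ) / l := by
      rw [hT, Finset.sum_filter, ← Finset.sum_sub_distrib]
      refine sum_congr rfl fun l hl => ?_
      rw [hcard]
      by_cases h : l ∣ y + 1
      · rw [if_neg (fun h' => h'.2 h), if_pos h]
        simp
      · rw [if_pos ⟨hl, h⟩, if_neg h]
        simp
    rw [h3]
    linarith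
  refine h1.trans ?_
  have h5 : Real.exp (-∑ l ∈ (Icc 7 ⌊(P : ℝ) ^ δ⌋₊).filter Nat.Prime, ((S l).card : ℝ) / l) ≤
      Real.exp 1 * Real.exp (-∑ l ∈ pw x w, (1 : ℝ) / l) := by
    rw [← Real.exp_add]
    apply Real.exp_le_exp.2
    linarith
  calc C * P * Real.exp (-∑ l ∈ (Icc 7 ⌊(P : ℝ) ^ δ⌋₊).filter Nat.Prime, ((S l).card : ℝ) / l) ≤
        C * P * (Real.exp 1 * Real.exp (-∑ l ∈ pw x w, (1 : ℝ) / l)) :=
        mul_le_mul_of_nonneg_left h5 (by positivity)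
    _ = C * Real.exp 1 * (P * Real.exp (-∑ l ∈ pw x w, (1 : ℝ) / l)) := by ring

end Pool.Agent.Helper36.LZ
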